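import Pool.Agent.Helper72.UGD.Core
import Pool.Agent.Helper8.NE.ApChange

/-!
# Project UG, block D: no uniform bias along prime dilates

With the Matomaki-Radziwill theorem in progressions (`NE.mrap`) blocks B and C (`UGD.core`) are contradictory for the Liouville
function: for `d ≥ 1`, `q ≥ 1` there is `δ₁ > 0`, depending only on `d` and `q`, such that for all shifts `h_j < H`, all large `P` and
all large `M` the average over the primes `p ∈ (P, 2P]` of the density of the `n ≤ M`, `n ≡ ρ(p) (mod q)`, with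
`∑_j Ω(n + p h_j) + Ω(n + p H) ≢ τ(p) (mod 2)` is larger than `δ₁`, whatever the functions `ρ`, `τ` of `p mod q`.
-/

set_option autoImplicit false

namespace UGD

open Finset MRP UGB UGC

/-- `Ω` modulo 2. -/
def gg (n : ℕ) : ZMod 2 := (Om n : ZMod 2)

theorem gg_ne {m n : ℕ} (h : NE.lamR m ≠ NE.lamR n) : gg m ≠ gg n := by
  intro he
  apply h
  unfold gg at he
  rw [ZMod.natCast_eq_natCast_iff'] at he
  unfold NE.lamR
  rw [neg_one_pow_eq_pow_mod_two, he, ← neg_one_pow_eq_pow_mod_two]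

/-- Short averages along a progression with difference `h` are small. -/
theorem mr_shift (h : ℕ) (hh : 1 ≤ h) (ε : ℝ) (hε : 0 < ε) : ∃ S₀ : ℕ, 1 ≤ S₀ ∧ ∀ S : ℕ, S₀ ≤ S →
    ∃ M₀ : ℕ, ∀ M : ℕ, M₀ ≤ M →
      ∑ n ∈ Icc 1 M, |∑ s ∈ Icc 1 S, NE.lamR (n + h * s)| ≤ ε * S * M := by
  classical
  have hhR : (0 : ℝ) < h := by exact_mod_cast hh
  obtain ⟨H0, hH0⟩ := NE.mrap h hh (ε / (2 * h ^ 2)) (by positivity)
  refine ⟨max H0 1, le_max_right _ _, fun S hS => ?_⟩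
  have hS1 : 1 ≤ S := le_trans (le_max_right _ _) hS
  have hSH : H0 ≤ h * S := by
    calc H0 ≤ S := le_trans (le_max_left _ _) hS
      _ = 1 * S := (one_mul S).symm
      _ ≤ h * S := Nat.mul_le_mul_right S hh
  obtain ⟨x0, hx0⟩ := hH0 (h * S) hSH
  obtain ⟨x1, hx1⟩ := NE.mean_small (ε / 2) (by positivity)
  refine ⟨max x0 x1, fun M hM => ?_⟩
  have hM0 : x0 ≤ M := le_trans (le_max_left _ _) hM
  have hM1 : x1 ≤ M := le_trans (le_max_right _ _) hM
  set b : ℕ → ℝ := fun m => (-1 : ℝ) ^ m with hb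
  set μ : ℝ := MRC.mA M b with hμ
  have hb1 : ∀ m, |b m| ≤ 1 := fun m => by simp [hb]
  have hμs : |μ| ≤ ε / 2 := hx1 M hM1
  -- the multiples of `h` in the window
  have himg : ∀ n : ℕ, (Icc 1 (h * S)).filter (fun j => (n + j) % h = (n % h) % h) =
      (Icc 1 S).image (fun s => h * s) := by
    intro n
    ext j
    simp only [Finset.mem_filter, Finset.mem_Icc, Finset.mem_image, Nat.mod_mod]
    constructor
    · rintro ⟨⟨h1, h2⟩, h3⟩
      have h4 : h ∣ j := by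
        have h5 : n + j ≡ n + 0 [MOD h] := h3
        exact (Nat.modEq_zero_iff_dvd.1 (Nat.ModEq.add_left_cancel' n h5))
      obtain ⟨s, rfl⟩ := h4
      refine ⟨s, ⟨?_, ?_⟩, rfl⟩
      · rcases Nat.eq_zero_or_pos s with h6 | h6
        · rw [h6, mul_zero] at h1; omega
        · exact h6
      · exact Nat.le_of_mul_le_mul_left h2 (by omega)
    · rintro ⟨s, ⟨h1, h2⟩, rfl⟩
      refine ⟨⟨?_, Nat.mul_le_mul_left _ h2⟩, by simp⟩
      calc 1 = 1 * 1 := rfl
        _ ≤ h * s := Nat.mul_le_mul hh h1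
  have hwin : ∀ n : ℕ, ∑ s ∈ Icc 1 S, (NE.lamR (n + h * s) - μ) =
      ∑ j ∈ (Icc 1 (h * S)).filter (fun j => (n + j) % h = (n % h) % h), (b (Om (n + j)) - μ) := by
    intro n
    rw [himg n, Finset.sum_image]
    · rfl
    · intro s _ s' _ he
      exact Nat.eq_of_mul_eq_mul_left (by omega : 0 < h) he
  have hsum : ∑ n ∈ Icc 1 M, |∑ s ∈ Icc 1 S, (NE.lamR (n + h * s) - μ)| ≤ ε / 2 * S * M := by
    calc ∑ n ∈ Icc 1 M, |∑ s ∈ Icc 1 S, (NE.lamR (n + h * s) - μ)|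
        ≤ ∑ n ∈ Icc 1 M, ∑ r ∈ range h,
            |∑ j ∈ (Icc 1 (h * S)).filter (fun j => (n + j) % h = r % h), (b (Om (n + j)) - μ)| := by
          refine Finset.sum_le_sum fun n _ => ?_
          rw [hwin n]
          exact Finset.single_le_sum
            (f := fun r => |∑ j ∈ (Icc 1 (h * S)).filter (fun j => (n + j) % h = r % h),
              (b (Om (n + j)) - μ)|)
            (fun r _ => abs_nonneg _) (Finset.mem_range.2 (Nat.mod_lt n (by omega)))
      _ = ∑ r ∈ range h, ∑ n ∈ Icc 1 M,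
            |∑ j ∈ (Icc 1 (h * S)).filter (fun j => (n + j) % h = r % h), (b (Om (n + j)) - μ)| :=
          Finset.sum_comm
      _ ≤ ∑ _r ∈ range h, (ε / (2 * h ^ 2)) * ((h * S : ℕ) : ℝ) * M :=
          Finset.sum_le_sum fun r _ => hx0 M hM0 b hb1 r
      _ = ε / 2 * S * M := by
          rw [Finset.sum_const, Finset.card_range, nsmul_eq_mul]
          push_cast
          field_simp
  have hpt : ∀ n : ℕ, |∑ s ∈ Icc 1 S, NE.lamR (n + h * s)| ≤
      |∑ s ∈ Icc 1 S, (NE.lamR (n + h * s) - μ)| + S * (ε / 2) := by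
    intro n
    have h1 : ∑ s ∈ Icc 1 S, NE.lamR (n + h * s) =
        ∑ s ∈ Icc 1 S, (NE.lamR (n + h * s) - μ) + S * μ := by
      rw [Finset.sum_sub_distrib, Finset.sum_const, Nat.card_Icc, nsmul_eq_mul]
      simp
    rw [h1]
    refine (abs_add_le _ _).trans ?_
    have h2 : |(S : ℝ) * μ| ≤ S * (ε / 2) := by
      rw [abs_mul, abs_of_nonneg (Nat.cast_nonneg (α := ℝ) S)]
      exact mul_le_mul_of_nonneg_left hμs (Nat.cast_nonneg _)
    linarith
  calc ∑ n ∈ Icc 1 M, |∑ s ∈ Icc 1 S, NE.lamR (n + h * s)|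
      ≤ ∑ n ∈ Icc 1 M, (|∑ s ∈ Icc 1 S, (NE.lamR (n + h * s) - μ)| + S * (ε / 2)) :=
        Finset.sum_le_sum fun n _ => hpt n
    _ = ∑ n ∈ Icc 1 M, |∑ s ∈ Icc 1 S, (NE.lamR (n + h * s) - μ)| + M * (S * (ε / 2)) := by
        rw [Finset.sum_add_distrib, Finset.sum_const, Nat.card_Icc, nsmul_eq_mul]
        simp
    _ ≤ ε / 2 * S * M + M * (S * (ε / 2)) := by linarith
    _ = ε * S * M := by ring

/-- The number of elements of a class. -/
theorem card_class (M q κ : ℕ) (hq : 0 < q) (hκ : κ < q) :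
    (M : ℝ) / q - 2 ≤ (((Icc 1 M).filter (fun n => n % q = κ)).card : ℝ) := by
  classical
  have hqR : (0 : ℝ) < q := by exact_mod_cast hq
  have h1 : (Icc 1 (M / q - 1)).card ≤ ((Icc 1 M).filter (fun n => n % q = κ)).card := by
    refine Finset.card_le_card_of_injOn (fun k => κ + q * k) ?_ ?_
    · intro k hk
      rw [Finset.mem_coe, Finset.mem_Icc] at hk
      rw [Finset.mem_coe, Finset.mem_filter, Finset.mem_Icc]
      refine ⟨⟨?_, ?_⟩, ?_⟩
      · change 1 ≤ κ + q * k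
        have : 1 * 1 ≤ q * k := Nat.mul_le_mul hq hk.1
        omega
      · change κ + q * k ≤ M
        have h2 : q * (k + 1) ≤ q * (M / q) := Nat.mul_le_mul_left _ (by omega)
        have h3 : q * (M / q) ≤ M := Nat.mul_div_le M q
        have h4 : q * (k + 1) = q * k + q := by ring
        omega
      · change (κ + q * k) % q = κ
        rw [Nat.add_mul_mod_self_left, Nat.mod_eq_of_lt hκ]
    · intro k _ k' _ he
      simp only [add_right_inj] at he
      exact Nat.eq_of_mul_eq_mul_left hq he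
  rw [Nat.card_Icc] at h1
  have h2 : M / q ≤ ((Icc 1 M).filter (fun n => n % q = κ)).card + 1 := by omega
  have h3 : ((M / q : ℕ) : ℝ) ≤ (((Icc 1 M).filter (fun n => n % q = κ)).card : ℝ) + 1 := by
    exact_mod_cast h2
  have h4 : (M : ℝ) / q < ((M / q : ℕ) : ℝ) + 1 := by
    rw [div_lt_iff₀ hqR]
    have h5 : M < q * (M / q + 1) := Nat.lt_mul_div_succ M hq
    have h6 : (M : ℝ) < q * (((M / q : ℕ) : ℝ) + 1) := by exact_mod_cast h5
    linarith
  linarith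

/-- If `λ(n) = λ(n + h s)` for most `n` of a class and all `s ≤ S` the short averages are large. -/
theorem large_of_few (h q κ S M : ℕ) (hq : 0 < q) (hκ : κ < q) (a : ℝ)
    (hfew : ∀ s : ℕ, 1 ≤ s → s ≤ S → (((Icc 1 M).filter
      (fun n => n % q = κ ∧ gg n ≠ gg (n + h * s))).card : ℝ) ≤ a) :
    S * ((M : ℝ) / q - 2 - 2 * a) ≤ ∑ n ∈ Icc 1 M, |∑ s ∈ Icc 1 S, NE.lamR (n + h * s)| := by
  classical
  set T := (Icc 1 M).filter (fun n => n % q = κ) with hT
  have h1 : ∑ n ∈ T, |∑ s ∈ Icc 1 S, NE.lamR (n + h * s)| ≤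
      ∑ n ∈ Icc 1 M, |∑ s ∈ Icc 1 S, NE.lamR (n + h * s)| :=
    Finset.sum_le_sum_of_subset_of_nonneg (Finset.filter_subset _ _) fun _ _ _ => abs_nonneg _
  refine le_trans ?_ h1
  have h2 : ∑ n ∈ T, ∑ s ∈ Icc 1 S, NE.lamR n * NE.lamR (n + h * s) ≤
      ∑ n ∈ T, |∑ s ∈ Icc 1 S, NE.lamR (n + h * s)| := by
    refine Finset.sum_le_sum fun n _ => ?_
    rw [← Finset.mul_sum]
    rcases NE.lamR_cases n with h3 | h3
    · rw [h3, one_mul]; exact le_abs_self _
    · rw [h3, neg_one_mul]; exact neg_le_abs _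
  refine le_trans ?_ h2
  rw [Finset.sum_comm]
  have h4 : ∀ s ∈ Icc 1 S, (M : ℝ) / q - 2 - 2 * a ≤ ∑ n ∈ T, NE.lamR n * NE.lamR (n + h * s) := by
    intro s hs
    rw [Finset.mem_Icc] at hs
    have h5 := hfew s hs.1 hs.2
    have h6 : ∀ n ∈ T, 1 - 2 * (if gg n ≠ gg (n + h * s) then (1 : ℝ) else 0) ≤
        NE.lamR n * NE.lamR (n + h * s) := by
      intro n _
      by_cases he : NE.lamR n = NE.lamR (n + h * s)
      · have h7 : NE.lamR n * NE.lamR (n + h * s) = 1 := by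
          rw [← he]
          rcases NE.lamR_cases n with h8 | h8 <;> rw [h8] <;> norm_num
        rw [h7]
        split_ifs <;> norm_num
      · have h7 := gg_ne he
        rw [if_pos h7]
        rcases NE.lamR_cases n with h8 | h8 <;> rcases NE.lamR_cases (n + h * s) with h9 | h9 <;>
          rw [h8, h9] <;> norm_num
    have h7 : ∑ n ∈ T, (1 - 2 * (if gg n ≠ gg (n + h * s) then (1 : ℝ) else 0)) =
        (T.card : ℝ) - 2 * (((Icc 1 M).filter
          (fun n => n % q = κ ∧ gg n ≠ gg (n + h * s))).card : ℝ) := by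
      rw [Finset.sum_sub_distrib, ← Finset.mul_sum, Finset.sum_const, nsmul_eq_mul, mul_one,
        ← Finset.sum_filter, Finset.sum_const, nsmul_eq_mul, mul_one, hT, Finset.filter_filter]
    have h8 := Finset.sum_le_sum h6
    rw [h7] at h8
    have h9 := card_class M q κ hq hκ
    rw [← hT] at h9
    linarith
  calc (S : ℝ) * ((M : ℝ) / q - 2 - 2 * a)
      = ∑ _s ∈ Icc 1 S, ((M : ℝ) / q - 2 - 2 * a) := by
        rw [Finset.sum_const, Nat.card_Icc, nsmul_eq_mul]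
        simp
    _ ≤ _ := Finset.sum_le_sum h4

/-- **Block D.** -/
theorem nogap (d q : ℕ) (hd : 1 ≤ d) (hq : 0 < q) : ∃ δ₁ : ℝ, 0 < δ₁ ∧
    ∀ (h : Fin d → ℕ) (H : ℕ), (∀ i, h i < H) → ∃ P₀ : ℕ, ∀ P : ℕ, P₀ ≤ P → ∃ M₀ : ℕ, ∀ M : ℕ, M₀ ≤ M →
      ∀ (ρ : ℕ → ℕ) (τ : ℕ → ZMod 2), (∀ r, ρ r < q) →
        δ₁ * (dyP P).card * M < ∑ p ∈ dyP P, (((Icc 1 M).filter (fun n => n % q = ρ (p % q) ∧
          (∑ j, gg (n + p * h j)) + gg (n + p * H) ≠ τ (p % q))).card : ℝ) := by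
  classical
  obtain ⟨C, K, hC, hK, hcore⟩ := core d q q hd hq hq dvd_rfl
  have hqR : (0 : ℝ) < q := by exact_mod_cast hq
  refine ⟨(1 / (8 * q * C)) ^ 2, by positivity, fun h H hH => ?_⟩
  set hh : ℕ := q * (∏ i, (H - h i)) * K with hhh
  have hh1 : 1 ≤ hh := by
    have h1 : 0 < ∏ i, (H - h i) := Finset.prod_pos fun i _ => Nat.sub_pos_of_lt (hH i)
    exact Nat.mul_pos (Nat.mul_pos hq h1) hK
  obtain ⟨S₀, hS₀, hmr⟩ := mr_shift hh hh1 (1 / (4 * q)) (by positivity)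
  obtain ⟨M₁, hM₁⟩ := hmr S₀ le_rfl
  obtain ⟨P₀, hP₀⟩ := hcore h H hH S₀
  refine ⟨P₀, fun P hP => ?_⟩
  obtain ⟨E, hE⟩ := hP₀ P hP
  obtain ⟨M₂, hM₂⟩ := exists_nat_gt (2 * q * (2 + 2 * E))
  refine ⟨max M₁ M₂, fun M hM ρ τ hρ => ?_⟩
  by_contra hcon
  push Not at hcon
  obtain ⟨κ, hκ, hs⟩ := hE M gg ρ τ _ hρ (by positivity) hcon
  have hsq : √((1 / (8 * q * C)) ^ 2) = 1 / (8 * q * C) := Real.sqrt_sq (by positivity)
  rw [hsq] at hs
  have h1 := large_of_few hh q κ S₀ M hq hκ (C * (1 / (8 * q * C)) * M + E) (fun s hs1 hs2 => hs s hs1 hs2)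
  have h2 := hM₁ M (le_trans (le_max_left _ _) hM)
  have h3 := h1.trans h2
  have hS : (0 : ℝ) < S₀ := by exact_mod_cast hS₀
  have h4 : (M : ℝ) / q - 2 - 2 * (C * (1 / (8 * q * C)) * M + E) ≤ 1 / (4 * q) * M := by
    have h5 : (S₀ : ℝ) * ((M : ℝ) / q - 2 - 2 * (C * (1 / (8 * q * C)) * M + E)) ≤
        S₀ * (1 / (4 * q) * M) := by
      calc (S₀ : ℝ) * ((M : ℝ) / q - 2 - 2 * (C * (1 / (8 * q * C)) * M + E))
          ≤ 1 / (4 * q) * S₀ * M := h3
        _ = S₀ * (1 / (4 * q) * M) := by ring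
    exact le_of_mul_le_mul_left h5 hS
  have h6 : C * (1 / (8 * q * C)) * M = (M : ℝ) / q / 8 := by
    field_simp
  rw [h6] at h4
  have h7 : (1 / (4 * q) * M : ℝ) = (M : ℝ) / q / 4 := by
    field_simp
  rw [h7] at h4
  have h8 : (2 * q * (2 + 2 * E) : ℝ) < M := by
    refine hM₂.trans_le ?_
    exact_mod_cast le_trans (le_max_right _ _) hM
  have h9 : 2 * (2 + 2 * E) < (M : ℝ) / q := by
    rw [lt_div_iff₀ hqR]
    linarith
  linarith

end UGD
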