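import Pool.Agent.Helper72.UGC.Corner

/-!
# UGD-1: the cancellation identity

For a subset `s` of `Fin d` put `n_s = n + W ∑_{i ∉ s} b i h i` and `p_s = p + W ∑_{i ∈ s} b i`. For `j : Fin d` the number
`n_s + p_s * h j` does not change if `j` is moved into or out of `s`
(`W b_j h_j` appears once in either case: `j ∉ s`: `W (b j h j + ∑_{i ∉ s, i ≠ j} b i h i) + (p + W ∑_{i ∈ s} b i) h j`), so the sum over `s` of
`g (n_s + p_s * h j)` vanishes in `ZMod 2` (involution `s ↦ s ∆ {j}`). What remains is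
`∑_s g (n_s + p_s * H)`, and `n_s + p_s H = (n + W ∑ b i h i + p H) + W ∑_{i ∈ s} b i (H - h i)` as `h i ≤ H`.
-/

set_option autoImplicit false

namespace UGD

open Finset UGB UGC

private theorem cancel_arith {d : ℕ} (W p hj : ℕ) (b h : Fin d → ℕ) (s : Finset (Fin d)) (j : Fin d)
    (hjs : j ∉ s) (hh : h j = hj) (n : ℕ) :
    n + W * ∑ i ∈ (insert j s)ᶜ, b i * h i + (p + W * ∑ i ∈ insert j s, b i) * hj =
      n + W * ∑ i ∈ sᶜ, b i * h i + (p + W * ∑ i ∈ s, b i) * hj := by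
  classical
  have h1 : sᶜ = insert j ((insert j s)ᶜ) := by
    ext i
    simp only [Finset.mem_compl, Finset.mem_insert, not_or]
    constructor
    · intro hi
      by_cases hij : i = j
      · exact Or.inl hij
      · exact Or.inr ⟨hij, hi⟩
    · rintro (rfl | ⟨_, hi⟩)
      · exact hjs
      · exact hi
  have h2 : j ∉ (insert j s)ᶜ := by simp
  rw [h1, Finset.sum_insert h2, Finset.sum_insert hjs, hh]
  ring

theorem cancel (d : ℕ) (g : ℕ → ZMod 2) (W n p H : ℕ) (b h : Fin d → ℕ) (hH : ∀ i, h i ≤ H) :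
    ∑ s : Finset (Fin d), ((∑ j, g (n + W * ∑ i ∈ sᶜ, b i * h i + (p + W * ∑ i ∈ s, b i) * h j)) +
        g (n + W * ∑ i ∈ sᶜ, b i * h i + (p + W * ∑ i ∈ s, b i) * H)) =
      DD g W (fun i => H - h i) b (n + W * ∑ i, b i * h i + p * H) := by
  classical
  rw [Finset.sum_add_distrib, Finset.sum_comm]
  have h1 : ∑ j : Fin d, ∑ s : Finset (Fin d),
      g (n + W * ∑ i ∈ sᶜ, b i * h i + (p + W * ∑ i ∈ s, b i) * h j) = 0 := by
    refine Finset.sum_eq_zero fun j _ => ?_
    refine sum_toggle j _ fun s hjs => ?_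
    rw [cancel_arith W p (h j) b h s j hjs rfl n]
  rw [h1, zero_add]
  unfold DD
  refine Finset.sum_congr rfl fun s _ => ?_
  congr 1
  have h2 : ∑ i, b i * h i = ∑ i ∈ sᶜ, b i * h i + ∑ i ∈ s, b i * h i := by
    rw [add_comm, Finset.sum_add_sum_compl]
  have h3 : (∑ i ∈ s, b i) * H = ∑ i ∈ s, b i * (H - h i) + ∑ i ∈ s, b i * h i := by
    rw [Finset.sum_mul, ← Finset.sum_add_distrib]
    refine Finset.sum_congr rfl fun i _ => ?_
    rw [← Nat.mul_add, Nat.sub_add_cancel (hH i)]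
  have h4 : (p + W * ∑ i ∈ s, b i) * H = p * H + W * ((∑ i ∈ s, b i) * H) := by ring
  rw [h2, h4, h3]
  ring

end UGD
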