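import Pool.Agent.Helper72.UGB.Cubes
import Pool.Agent.Helper72.UGC.Descent
import Pool.Agent.Helper72.UGD.Cancel

/-!
# UGD-2: blocks B and C together

`g n` additive (for the Liouville function `g n = Ω(n)` modulo 2). `bad M p = {n ∈ [1, M] : n % q = ρ (p % W) and
`∑_j g (n + p h_j) + g (n + p H) ≠ τ (p % W)`}`. Hypothesis: the average over the primes `p ∈ (P, 2P]` of `|bad M p|` is `≤ δ M`.

Let `c, C₁, P₀` be those of `cubes d W`, and `C₂, K` those of `descent d c'` with `c'` such that `c P ^ d ≥ c' (P / W) ^ d` (`c' = c`, as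
`P / W ≤ P`). Given `h`, `H`, `s` (put `k i = H - h i > 0`) let `P` be large (`P / W ≥ N₀` of `descent`). Fix `M`, `g`, ..; if `M = 0` there is
nothing to prove. Apply `cubes` with `e p = |bad M p| / M` (`0 ≤ e ≤ 1`): class `r`, set `B ⊆ bx d (P / W)`. Put
`κ = (ρ r + r * H) % q`. For `b ∈ B` let `p` be given by `cubes`; all `p_s = p + off W b s ∈ AP P W r` are `≡ r` modulo `W`, hence modulo `q`
(`q ∣ W`). Let `m ∈ [1, M]`, `m % q = κ` and `m > w := W ∑ b i h i + p H`; `n = m - w`, `n_s = n + W ∑_{i ∉ s} b i h i ∈ [1, M]` (it is `≤ m`).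
Modulo `q`: `n_s ≡ n ≡ m - r H ≡ ρ r`, and `ρ r < q`, so `n_s % q = ρ r`. If no `n_s` is in `bad M p_s`, then by `cancel`
`DD g W k b m = ∑_s τ r = 2 ^ d τ r = 0` (`d ≥ 1`, `ZMod 2`; `p_s % W = r`). So the `m` with `m % q = κ` and `DD g W k b m ≠ 0` are at most
`w + ∑_s |bad M p_s| ≤ w + C₁ √δ M` (for fixed `s`, `m ↦ n_s` is injective), `w ≤ (d + 2) P H` (`W b i ≤ P`, `h i ≤ H`, `p ≤ 2 P`).
Now `descent` with `E = (d + 2) P H + C₁ √δ M`: the result is at most `C₂ (C₁ √δ M + (d + 2) P H + W (1 + ∑ k i) P)`, so `C = C₁ C₂` and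
the additive constant depends only on `P` and the data fixed before `M`. The class `κ` does not depend on `s`: all `s ≤ S` are treated
with the same `P`, class and set `B`.
-/

set_option autoImplicit false

namespace UGD

open Finset MRP UGB UGC

/-- The exceptional set of the prime `p`. -/
private def badS {d : ℕ} (W q M : ℕ) (g : ℕ → ZMod 2) (ρ : ℕ → ℕ) (τ : ℕ → ZMod 2) (h : Fin d → ℕ) (H p : ℕ) :
    Finset ℕ :=
  (Icc 1 M).filter (fun n => n % q = ρ (p % W) ∧
    (∑ j, g (n + p * h j)) + g (n + p * H) ≠ τ (p % W))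

private theorem two_pow_nsmul (d : ℕ) (hd : 1 ≤ d) (t : ZMod 2) :
    ∑ _s : Finset (Fin d), t = 0 := by
  rw [Finset.sum_const, Finset.card_univ, Fintype.card_finset, Fintype.card_fin, nsmul_eq_mul]
  have : ((2 ^ d : ℕ) : ZMod 2) = 0 := by
    rw [ZMod.natCast_eq_zero_iff]
    exact dvd_pow_self 2 (by omega)
  rw [this, zero_mul]

/-- One set of sides. -/
private theorem one_box {d : ℕ} (W q : ℕ) (hd : 1 ≤ d) (hqW : q ∣ W) (M H : ℕ)
    (g : ℕ → ZMod 2) (ρ : ℕ → ℕ) (τ : ℕ → ZMod 2) (h b : Fin d → ℕ) (hH : ∀ i, h i < H)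
    (r p : ℕ) (hρ : ρ r < q) (hp : ∀ s : Finset (Fin d), (p + off W b s) % W = r) :
    ((Icc 1 M).filter (fun n => n % q = (ρ r + r * H) % q ∧ DD g W (fun i => H - h i) b n ≠ 0)).card ≤
      (W * ∑ i, b i * h i + p * H) +
        ∑ s : Finset (Fin d), (badS W q M g ρ τ h H (p + off W b s)).card := by
  classical
  set w : ℕ := W * ∑ i, b i * h i + p * H with hw
  set A : Finset (Fin d) → ℕ := fun s => W * ∑ i ∈ sᶜ, b i * h i with hA
  have hAle : ∀ s, A s ≤ w := by
    intro s
    have : ∑ i ∈ sᶜ, b i * h i ≤ ∑ i, b i * h i :=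
      Finset.sum_le_sum_of_subset (Finset.subset_univ _)
    have := Nat.mul_le_mul_left W this
    simp only [hA, hw]
    omega
  have hsub : (Icc 1 M).filter (fun n => n % q = (ρ r + r * H) % q ∧
      DD g W (fun i => H - h i) b n ≠ 0) ⊆
      Icc 1 w ∪ (Finset.univ : Finset (Finset (Fin d))).biUnion (fun s =>
        (Icc 1 M).filter (fun m => w < m ∧ m - w + A s ∈ badS W q M g ρ τ h H (p + off W b s))) := by
    intro m hm
    rw [Finset.mem_filter, Finset.mem_Icc] at hm
    obtain ⟨⟨hm1, hmM⟩, hmq, hmD⟩ := hm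
    rw [Finset.mem_union]
    by_cases hmw : m ≤ w
    · left
      exact Finset.mem_Icc.2 ⟨hm1, hmw⟩
    · right
      push Not at hmw
      by_contra hcon
      rw [Finset.mem_biUnion] at hcon
      push Not at hcon
      apply hmD
      set n : ℕ := m - w with hn
      have hmn : m = n + W * ∑ i, b i * h i + p * H := by omega
      -- congruences
      have hpW : p % W = r := by
        have := hp ∅
        simpa [off] using this
      have hpq : p ≡ r [MOD q] := by
        have h1 : p ≡ r [MOD W] := by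
          rw [Nat.ModEq, ← hpW, Nat.mod_mod]
        exact h1.of_dvd hqW
      have hnq : n ≡ ρ r [MOD q] := by
        have h1 : n + W * ∑ i, b i * h i + p * H ≡ ρ r + r * H [MOD q] := by
          rw [← hmn]; exact hmq
        have h2 : n + W * ∑ i, b i * h i + p * H ≡ n + r * H [MOD q] := by
          have h3 : n + W * ∑ i, b i * h i ≡ n [MOD q] := by
            have : W * ∑ i, b i * h i ≡ 0 [MOD q] :=
              (Nat.modEq_zero_iff_dvd.2 (Dvd.dvd.mul_right hqW _))
            simpa using Nat.ModEq.add_left n this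
          exact Nat.ModEq.add h3 (Nat.ModEq.mul_right H hpq)
        exact Nat.ModEq.add_right_cancel' (r * H) (h2.symm.trans h1)
      have hval : ∀ s : Finset (Fin d),
          (∑ j, g (n + W * ∑ i ∈ sᶜ, b i * h i + (p + W * ∑ i ∈ s, b i) * h j)) +
            g (n + W * ∑ i ∈ sᶜ, b i * h i + (p + W * ∑ i ∈ s, b i) * H) = τ r := by
        intro s
        have h1 := hcon s (Finset.mem_univ s)
        rw [Finset.mem_filter] at h1
        push Not at h1
        have h2 := h1 (Finset.mem_Icc.2 ⟨hm1, hmM⟩) hmw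
        simp only [badS, Finset.mem_filter, Finset.mem_Icc, hp s] at h2
        push Not at h2
        have h3 := h2 ⟨by omega, by have := hAle s; omega⟩ (by
          have h4 : n + A s ≡ ρ r [MOD q] := by
            have : A s ≡ 0 [MOD q] :=
              (Nat.modEq_zero_iff_dvd.2 (Dvd.dvd.mul_right hqW _))
            have h5 : n + A s ≡ n [MOD q] := by simpa using Nat.ModEq.add_left n this
            exact h5.trans hnq
          have h6 : (n + A s) % q = ρ r % q := h4
          rw [h6, Nat.mod_eq_of_lt hρ])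
        simpa only [hA, off] using h3
      have hc := cancel d g W n p H b h (fun i => (hH i).le)
      rw [← hmn] at hc
      rw [← hc, Finset.sum_congr rfl (fun s _ => hval s)]
      exact two_pow_nsmul d hd _
  refine (Finset.card_le_card hsub).trans ((Finset.card_union_le _ _).trans ?_)
  refine Nat.add_le_add (by simp) (Finset.card_biUnion_le.trans (Finset.sum_le_sum fun s _ => ?_))
  refine Finset.card_le_card_of_injOn (fun m => m - w + A s) ?_ ?_
  · intro m hm
    have hm' := (Finset.mem_filter.1 (Finset.mem_coe.1 hm)).2.2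
    exact hm'
  · intro m hm m' hm' he
    have h1 := (Finset.mem_filter.1 (Finset.mem_coe.1 hm)).2.1
    have h2 := (Finset.mem_filter.1 (Finset.mem_coe.1 hm')).2.1
    simp only at he
    omega

theorem core (d W q : ℕ) (hd : 1 ≤ d) (hW : 0 < W) (hq : 0 < q) (hqW : q ∣ W) :
    ∃ (C : ℝ) (K : ℕ), 0 < C ∧ 1 ≤ K ∧ ∀ (h : Fin d → ℕ) (H : ℕ), (∀ i, h i < H) → ∀ S : ℕ,
      ∃ P₀ : ℕ, ∀ P : ℕ, P₀ ≤ P → ∃ E : ℝ, ∀ (M : ℕ) (g : ℕ → ZMod 2) (ρ : ℕ → ℕ) (τ : ℕ → ZMod 2) (δ : ℝ),
        (∀ r, ρ r < q) → 0 < δ →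
          (∑ p ∈ dyP P, (((Icc 1 M).filter (fun n => n % q = ρ (p % W) ∧
            (∑ j, g (n + p * h j)) + g (n + p * H) ≠ τ (p % W))).card : ℝ)) ≤ δ * (dyP P).card * M →
            ∃ κ < q, ∀ s : ℕ, 1 ≤ s → s ≤ S → (((Icc 1 M).filter
              (fun n => n % q = κ ∧ g n ≠ g (n + W * (∏ i, (H - h i)) * K * s))).card : ℝ) ≤
              C * √δ * M + E := by
  classical
  obtain ⟨c, C₁, hc, hC₁, P₁, hcub⟩ := cubes d W hW
  obtain ⟨C₂, K, hC₂, hK, hdes⟩ := descent d c hc
  refine ⟨C₂ * C₁, K, mul_pos hC₂ hC₁, hK, fun h H hH S => ?_⟩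
  have hdes' := fun (s : ℕ) => hdes W hW (fun i => H - h i) (fun i => Nat.sub_pos_of_lt (hH i)) (s + 1)
    (Nat.succ_pos s)
  choose N₀ hN₀ using hdes'
  set N₁ : ℕ := ∑ s ∈ range S, N₀ s with hN₁
  refine ⟨max P₁ (W * N₁), fun P hP => ?_⟩
  have hP1 : P₁ ≤ P := le_trans (le_max_left _ _) hP
  have hN : N₁ ≤ P / W := by
    rw [Nat.le_div_iff_mul_le hW, mul_comm]
    exact le_trans (le_max_right _ _) hP
  refine ⟨C₂ * (((d : ℝ) + 2) * P * H + W * (1 + ∑ i, ((H - h i : ℕ) : ℝ)) * (P / W : ℕ)),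
    fun M g ρ τ δ hρ hδ hsum => ?_⟩
  have hE0 : 0 ≤ C₂ * (((d : ℝ) + 2) * P * H + W * (1 + ∑ i, ((H - h i : ℕ) : ℝ)) * (P / W : ℕ)) := by
    have : 0 ≤ ∑ i, ((H - h i : ℕ) : ℝ) := Finset.sum_nonneg fun i _ => Nat.cast_nonneg _
    positivity
  rcases Nat.eq_zero_or_pos M with hM | hM
  · subst hM
    refine ⟨0, hq, fun s _ _ => ?_⟩
    simpa using hE0
  have hMR : (0 : ℝ) < M := by exact_mod_cast hM
  set e : ℕ → ℝ := fun p => ((badS W q M g ρ τ h H p).card : ℝ) / M with he
  have he0 : ∀ p, 0 ≤ e p := fun p => by positivity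
  have he1 : ∀ p, e p ≤ 1 := by
    intro p
    rw [he]
    simp only
    rw [div_le_one hMR]
    have : (badS W q M g ρ τ h H p).card ≤ (Icc 1 M).card := Finset.card_filter_le _ _
    rw [Nat.card_Icc] at this
    exact_mod_cast (by omega : (badS W q M g ρ τ h H p).card ≤ M)
  have hes : ∑ p ∈ dyP P, e p ≤ δ * (dyP P).card := by
    rw [he, ← Finset.sum_div, div_le_iff₀ hMR]
    exact hsum
  obtain ⟨r, hr, B, hB, hBc, hBp⟩ := hcub P hP1 e he0 he1 δ hδ hes
  refine ⟨(ρ r + r * H) % q, Nat.mod_lt _ hq, fun s hs1 hsS => ?_⟩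
  have hBc' : c * ((P / W : ℕ) : ℝ) ^ d ≤ (B.card : ℝ) := by
    refine le_trans (mul_le_mul_of_nonneg_left ?_ hc.le) hBc
    have : ((P / W : ℕ) : ℝ) ≤ P := by exact_mod_cast Nat.div_le_self P W
    gcongr
  have key : ∀ b ∈ B, (((Icc 1 M).filter (fun n => n % q = (ρ r + r * H) % q ∧
      DD g W (fun i => H - h i) b n ≠ 0)).card : ℝ) ≤ C₁ * √δ * M + ((d : ℝ) + 2) * P * H := by
    intro b hb
    obtain ⟨p, hp, hpe⟩ := hBp b hb
    have hpr : ∀ s : Finset (Fin d), (p + off W b s) % W = r :=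
      fun s => (Finset.mem_filter.1 (hp s)).2
    have h1 := one_box W q hd hqW M H g ρ τ h b hH r p (hρ r) hpr
    have h2 : ((∑ s : Finset (Fin d), (badS W q M g ρ τ h H (p + off W b s)).card : ℕ) : ℝ) ≤
        C₁ * √δ * M := by
      have h3 : ((∑ s : Finset (Fin d), (badS W q M g ρ τ h H (p + off W b s)).card : ℕ) : ℝ) =
          (∑ s : Finset (Fin d), e (p + off W b s)) * M := by
        rw [Finset.sum_mul]
        push_cast
        refine Finset.sum_congr rfl fun s _ => ?_
        rw [he]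
        field_simp
      rw [h3]
      exact mul_le_mul_of_nonneg_right hpe hMR.le
    have h4 : W * ∑ i, b i * h i + p * H ≤ (d + 2) * P * H := by
      have hbW : ∀ i, W * b i ≤ P := by
        intro i
        have := (mem_bx.1 (hB hb) i).2
        calc W * b i ≤ W * (P / W) := Nat.mul_le_mul_left _ this
          _ ≤ P := Nat.mul_div_le P W
      have hp2 : p ≤ 2 * P := by
        have h5 := hp ∅
        simp only [off, Finset.sum_empty, mul_zero, add_zero] at h5
        have h6 := (Finset.mem_filter.1 h5).1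
        have h7 := (Finset.mem_filter.1 h6).1
        exact (Finset.mem_Ioc.1 h7).2
      have h8 : W * ∑ i, b i * h i ≤ d * (P * H) := by
        rw [Finset.mul_sum]
        calc ∑ i, W * (b i * h i) ≤ ∑ _i : Fin d, P * H := by
              refine Finset.sum_le_sum fun i _ => ?_
              rw [← mul_assoc]
              exact Nat.mul_le_mul (hbW i) (hH i).le
          _ = d * (P * H) := by simp
      calc W * ∑ i, b i * h i + p * H ≤ d * (P * H) + 2 * P * H :=
            Nat.add_le_add h8 (Nat.mul_le_mul_right H hp2)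
        _ = (d + 2) * P * H := by ring
    have h5 : (((Icc 1 M).filter (fun n => n % q = (ρ r + r * H) % q ∧
        DD g W (fun i => H - h i) b n ≠ 0)).card : ℝ) ≤
        (((d + 2) * P * H : ℕ) : ℝ) +
        ((∑ s : Finset (Fin d), (badS W q M g ρ τ h H (p + off W b s)).card : ℕ) : ℝ) := by
      exact_mod_cast h1.trans (Nat.add_le_add_right h4 _)
    have h6 : (((d + 2) * P * H : ℕ) : ℝ) = ((d : ℝ) + 2) * P * H := by push_cast; ring
    rw [h6] at h5
    linarith
  have hE' : 0 ≤ C₁ * √δ * M + ((d : ℝ) + 2) * P * H := by positivity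
  obtain ⟨s', rfl⟩ : ∃ s', s = s' + 1 := ⟨s - 1, by omega⟩
  have hNs : N₀ s' ≤ P / W := by
    refine le_trans ?_ hN
    exact Finset.single_le_sum (f := N₀) (fun _ _ => Nat.zero_le _)
      (Finset.mem_range.2 (by omega))
  have hfin := hN₀ s' (P / W) hNs B hB hBc' g q ((ρ r + r * H) % q) M _ hqW hE' key
  refine hfin.trans (le_of_eq ?_)
  ring

end UGD
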